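import Pool.Agent.Helper37.KDB.Extra
import Pool.Agent.Helper37.KDB.St.D18
import Pool.Agent.Helper37.KDB.St.K4
import Pool.Agent.Helper37.KDB.St.K5
import Pool.Agent.Helper37.KDB.St.C5
import Pool.Agent.Helper37.KDB.St.C6
import Pool.Agent.Helper37.KDB.St.L2
import Pool.Agent.Helper37.KDB.St.L4
import Pool.Agent.Helper37.KDB.St.P13
import Pool.Agent.Helper37.KDB.St.P14
import Pool.Agent.Helper37.KDB.St.P15
import Pool.Agent.Helper37.KDB.St.P16
import Pool.Agent.Helper37.KDB.St.P17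

/-! Project KDB, piece CH: the chain theorem (assembly of the chain part). -/

set_option autoImplicit false

namespace KDB.I.CH

open MeasureTheory KDB
open scoped ENNReal

variable (p : Par)

/-- extension of a choice on the first `n` levels by zero -/
def extC {n : ℕ} (c : Fin n → Fin 50) : ℕ → ℕ := fun i => if h : i < n then (c ⟨i, h⟩ : ℕ) else 0

/-- the canonical choice on the first `n` levels -/
noncomputable def chR (hp : p.Ok) (om : ℕ → Nz p.d) (t : ℕ) : Fin p.n → Fin 50 := fun i =>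
  ⟨p.cho om t i, Nat.lt_succ_of_le ((cho_compat p hp om t).1 i)⟩

lemma extC_le {n : ℕ} (c : Fin n → Fin 50) (i : ℕ) : extC c i ≤ 49 := by
  unfold extC
  split_ifs with h
  · exact Nat.le_of_lt_succ (c ⟨i, h⟩).2
  · exact Nat.zero_le _

lemma extC_chR (hp : p.Ok) (om : ℕ → Nz p.d) (t : ℕ) {i : ℕ} (hi : i < p.n) :
    extC (chR p hp om t) i = p.cho om t i := by
  simp only [extC, chR, dif_pos hi]

lemma compat_extC (hp : p.Ok) (om : ℕ → Nz p.d) (t : ℕ) :
    p.Compat om t (extC (chR p hp om t)) := by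
  intro i hi h1 h2
  rw [extC_chR p hp om t hi] at h2 ⊢
  exact (cho_compat p hp om t).2 i hi h1 h2

lemma lostf_extC (hp : p.Ok) (om : ℕ → Nz p.d) (t : ℕ) :
    p.lostf t (extC (chR p hp om t)) = p.lostf t (p.cho om t) := by
  unfold Par.lostf
  congr 1
  refine Finset.filter_congr fun i hi => ?_
  rw [extC_chR p hp om t (Finset.mem_range.1 hi)]

/-- the code of a realisation: the choice and the full code -/
noncomputable def code (hp : p.Ok) (t : ℕ) (om : ℕ → Nz p.d) :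
    (Fin p.n → Fin 50) × (Fin p.n → Par.TCode p.d × (Fin (MM * p.L) → Par.BCode p.d)) :=
  (chR p hp om t, p.fcode om t (extC (chR p hp om t)))

/-- the weight of a code -/
noncomputable def wt (t : ℕ)
    (a : (Fin p.n → Fin 50) × (Fin p.n → Par.TCode p.d × (Fin (MM * p.L) → Par.BCode p.d))) :
    ℝ≥0∞ :=
  ((50 : ℝ≥0∞) ^ p.n)⁻¹ * p.cF t (extC a.1) a.2

lemma tsum_wt (hp : p.Ok) (t : ℕ) : ∑' a, wt p t a ≤ 1 := by
  rw [ENNReal.tsum_prod']
  have h1 : ∀ c : Fin p.n → Fin 50,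
      ∑' F : Fin p.n → Par.TCode p.d × (Fin (MM * p.L) → Par.BCode p.d), wt p t (c, F) ≤
      ((50 : ℝ≥0∞) ^ p.n)⁻¹ := by
    intro c
    simp only [wt]
    rw [ENNReal.tsum_mul_left]
    calc ((50 : ℝ≥0∞) ^ p.n)⁻¹ * _ ≤ ((50 : ℝ≥0∞) ^ p.n)⁻¹ * 1 := by
          gcongr
          exact kraft_cF p hp t (extC c)
      _ = _ := mul_one _
  calc ∑' c : Fin p.n → Fin 50,
      ∑' F : Fin p.n → Par.TCode p.d × (Fin (MM * p.L) → Par.BCode p.d), wt p t (c, F)
      ≤ ∑' _c : Fin p.n → Fin 50, ((50 : ℝ≥0∞) ^ p.n)⁻¹ := ENNReal.tsum_le_tsum h1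
    _ = 1 := by
        rw [tsum_fintype, Finset.sum_const, Finset.card_univ, Fintype.card_fun, Fintype.card_fin,
          Fintype.card_fin, nsmul_eq_mul]
        push_cast
        refine ENNReal.mul_inv_cancel ?_ ?_
        · exact pow_ne_zero _ (by norm_num)
        · exact ENNReal.pow_ne_top (by norm_num)

/-- the good realisations -/
def gd (N t : ℕ) : Set (Fin N → Nz p.d) :=
  {om | (∀ j, p.Valid j (p.exte N om j)) ∧ (p.Yf (p.exte N om) t : ℝ) ≤ 3 / 2 * p.n ∧
    (p.nuf (p.exte N om) t : ℝ) ≤ p.K1 * p.n ∧ p.Nf (p.exte N om) t ≤ p.K2 * p.n ∧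
    (p.failf (p.exte N om) t : ℝ) ≤ p.n}

lemma wt_code (hp : p.Reg) (N t : ℕ) (htn : t ≤ p.tau p.n) (om : Fin N → Nz p.d)
    (ho : om ∈ gd p N t) :
    ENNReal.ofReal (1 / Real.exp (17 / 10 * p.n * p.d * Real.log p.ell)) ≤
      wt p t (code p hp.toOk t (p.exte N om)) := by
  obtain ⟨hv, hY, hnu, hN, hf⟩ := ho
  set o := p.exte N om with hodef
  set c := extC (chR p hp.toOk o t) with hcdef
  have h1 : p.Compat o t c := compat_extC p hp.toOk o t
  have h2 := cost_le p hp.toOk o hv t htn c (extC_le _) h1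
  have h3 : 48 * (p.lostf t c : ℝ) ≤ p.Yf o t + p.failf o t + p.Nf o t / p.R +
      p.nuf o t / p.q := by
    rw [hcdef, lostf_extC]
    exact lost_le p hp.toOk o hv t htn
  have h4 := cost_num p hp o t c hY hnu hN hf h3
  have h5 : wt p t (code p hp.toOk t o) = ((50 : ℝ≥0∞) ^ p.n)⁻¹ * p.cF t c (p.fcode o t c) := rfl
  have h6 : ((50 : ℝ≥0∞) ^ p.n)⁻¹ = ENNReal.ofReal (Real.exp (-(p.n * Real.log 50))) := by
    rw [Real.exp_neg, mul_comm, Real.exp_mul, Real.exp_log (by norm_num), Real.rpow_natCast,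
      ENNReal.ofReal_inv_of_pos (by positivity), ENNReal.ofReal_pow (by norm_num)]
    norm_num
  rw [h5, h6]
  calc ENNReal.ofReal (1 / Real.exp (17 / 10 * p.n * p.d * Real.log p.ell))
      ≤ ENNReal.ofReal (Real.exp (-(p.n * Real.log 50)) * Real.exp (-p.cost o t c)) := by
        refine ENNReal.ofReal_le_ofReal ?_
        rw [one_div, ← Real.exp_neg, ← Real.exp_add]
        exact Real.exp_le_exp.2 (by linarith)
    _ = ENNReal.ofReal (Real.exp (-(p.n * Real.log 50))) *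
        ENNReal.ofReal (Real.exp (-p.cost o t c)) := ENNReal.ofReal_mul (Real.exp_pos _).le
    _ ≤ _ := by gcongr

lemma gd_compl (N t : ℕ) : (gd p N t)ᶜ ⊆
    {om | ¬ ∀ j, p.Valid j (p.exte N om j)} ∪
    {om | (3 / 2 : ℝ) * p.n < p.Yf (p.exte N om) t} ∪
    {om | p.K1 * p.n < p.nuf (p.exte N om) t} ∪
    {om | p.K2 * p.n < p.Nf (p.exte N om) t} ∪
    {om | (p.n : ℝ) < p.failf (p.exte N om) t} := by
  intro om ho
  simp only [Set.mem_union, Set.mem_ofPred_eq]
  by_contra hcon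
  push Not at hcon
  obtain ⟨⟨⟨⟨h1, h2⟩, h3⟩, h4⟩, h5⟩ := hcon
  exact ho ⟨h1, h2, h3, h4, h5⟩

lemma prob_gd (hp : p.Reg) (hH : p.Hok) (N t : ℕ) (ht : t ≤ N) (htn : t ≤ p.tau p.n) :
    p.pathLaw N (gd p N t)ᶜ ≤ ENNReal.ofReal (4 * (p.L : ℝ) ^ (-(7 / 5 : ℝ) * p.n)) := by
  set e := ENNReal.ofReal ((p.L : ℝ) ^ (-(7 / 5 : ℝ) * p.n)) with he
  have h0 := valid_ae p hp.toOk hH N
  have h1 := prob_Y p hp hH N t ht htn
  have h2 := prob_nu p hp hH N t ht htn
  have h3 := prob_N p hp hH N t ht htn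
  have h4 := prob_fail p hp hH N t ht htn
  calc p.pathLaw N (gd p N t)ᶜ ≤ _ := measure_mono (gd_compl p N t)
    _ ≤ 0 + e + e + e + e := by
        refine (measure_union_le _ _).trans (add_le_add ?_ h4)
        refine (measure_union_le _ _).trans (add_le_add ?_ h3)
        refine (measure_union_le _ _).trans (add_le_add ?_ h2)
        exact (measure_union_le _ _).trans (add_le_add h0.le h1)
    _ = ENNReal.ofReal (4 * (p.L : ℝ) ^ (-(7 / 5 : ℝ) * p.n)) := by
        rw [ENNReal.ofReal_mul (by norm_num), ← he, ENNReal.ofReal_ofNat]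
        ring

/-- CHAIN THEOREM: at time `t` the chain is near a small finite set -/
theorem chain (hp : p.Reg) (hH : p.Hok) (N t : ℕ) (ht : t ≤ N) (htn : t ≤ p.tau p.n) :
    ∃ G : Finset p.St, (G.card : ℝ) ≤ Real.exp (17 / 10 * p.n * p.d * Real.log p.ell) ∧
      p.pathLaw N {om | ∀ z ∈ G, 1 < ‖p.run (p.exte N om) t - z‖} ≤
        ENNReal.ofReal (4 * (p.L : ℝ) ^ (-(7 / 5 : ℝ) * p.n)) := by
  obtain ⟨G, hG1, hG2⟩ := kraft_count (E := p.St)
    (fun om : Fin N → Nz p.d => code p hp.toOk t (p.exte N om)) (wt p t) (tsum_wt p hp.toOk t)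
    (gd p N t) (fun om => p.run (p.exte N om) t) (by
      intro o ho o' ho' heq
      have h1 : chR p hp.toOk (p.exte N o) t = chR p hp.toOk (p.exte N o') t :=
        congrArg Prod.fst heq
      have h2 : p.fcode (p.exte N o) t (extC (chR p hp.toOk (p.exte N o) t)) =
          p.fcode (p.exte N o') t (extC (chR p hp.toOk (p.exte N o') t)) :=
        congrArg Prod.snd heq
      rw [← h1] at h2
      have h3 : p.Compat (p.exte N o') t (extC (chR p hp.toOk (p.exte N o) t)) := by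
        rw [h1]
        exact compat_extC p hp.toOk _ t
      have h4 := fcode_close p hp.toOk (p.exte N o) (p.exte N o') ho.1 ho'.1 t htn
        (extC (chR p hp.toOk (p.exte N o) t)) (extC_le _) (compat_extC p hp.toOk _ t) h3 h2
      exact max_le h4.1 h4.2)
    (Real.exp (17 / 10 * p.n * p.d * Real.log p.ell)) (Real.exp_pos _)
    (fun o ho => wt_code p hp N t htn o ho)
  refine ⟨G, hG1, (measure_mono ?_).trans (prob_gd p hp hH N t ht htn)⟩
  intro om hom hgood
  obtain ⟨z, hz, hzn⟩ := hG2 om hgood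
  exact absurd hzn (not_le.2 (hom z hz))

end KDB.I.CH
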